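import Pool.Agent.J4H25.NPP.Prf

/-!
# Proof systems relative to random oracles and the disjointness of `NP`-pairs

Definitions (in `Pool/Agent/H628R3/RO/Defs.lean`, `Pool/Agent/J4H63/ESY/Defs.lean` for `join`, and
`Pool/Agent/J4H25/NPP/Prf.lean` for `DisjointnessAxioms`):

* an `Oracle` is a set of bit strings (a function from strings to booleans); `randomOracle` is the
  fair coin measure on the space of all oracles, so `∀ᵐ A` means for all oracles outside of a set of
  measure zero; `join A E` is the disjoint union of `A` and `E`;
* `IsFP B F`: the function `F` on bit strings is computable in polynomial time relative to `B`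
  (by an algorithm `Alg`, whose next action, as a function of the input and of the answers so far,
  is computed in polynomial time by a Turing machine of Mathlib);
* `IsNP B`, `IsUP B`: the classes `NP` and `UP` relative to `B`; `IsPair K X Y`: the sets `X`, `Y` are
  in the class `K` and disjoint; `pairBits a b` is the pair `⟨a, b⟩`;
* `IsProofSystem B L P`: the function `P` is computable in polynomial time relative to `B` and its
  range is `L`;
* `DisjointnessAxioms B`: let `P` be a proof system for `L`, let `S` be in `NP`, and let `G` be
  computable in polynomial time such that `G ⟨a, b⟩` is in `L` if and only if `a`, `b` are not both in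
  `S` (such a `G` exists if `L` is `coNP`-hard). Then there are a disjoint pair `(X, Y)` of nonempty
  tally sets in `UP` and `k ≥ 1` such that for all polynomial-time reductions `r₀` of `X` to `S` and
  `r₁` of `Y` to `S` (they exist if `S` is `NP`-hard) the following holds for the system `Q` with
  `Q(0v) = P(v)` and the axioms `Q(1x) = G ⟨r₀ x, r₁ x⟩` (the statements that `x` is not both in `X`
  and in `Y`): it is a proof system for `L`, and for infinitely many `x` in `X` or `Y` all `P`-proofs
  of the axiom `Q(1x)` are longer than `2 ^ (|x| / k)` (all relative to `B`).

Idea.  Let `C` be the set of the `⟨⟨a, b⟩, s⟩` such that `a` is in `S` and `G ⟨a, b⟩` has a `P`-proof of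
length at most `|s|`, and `D` the same with `b` in `S`. These are disjoint sets in `NP`. We construct
a pair `(X, Y)` such that all polynomial-time reductions to `(C, D)` fail, even with padding `s` of
length `2 ^ (|x| / k)`. Stage `i` is about words `w` of length `n = T i` (a tower). `w` is an `X`-hit
(`Y`-hit) of level `l` if the first `n + ax l` random bits belonging to the candidate `(0, w)`
(`(1, w)`) are ones, so there is an `X`-hit with probability about `2 ^ (-ax l)`, and there are two
hits with probability at most about `2 ^ (-2 ax l)`, where `∑ 2 ^ (-2 ax l) < ∞` and
`∑ 2 ^ (-ax l) = ∞`. `X` (`Y`) is the set of the `0^(T i)` such that there is an `X`-hit (`Y`-hit) of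
the level of the stage, which is the number of earlier stages at which the given pair `(C, D)` does
not capture: it captures if there is a `q` shorter than `2 ^ (n / K)` which, for at least half of the
`w`, is put into `C` by planting the candidate `(0, w)`, and, for at least half of the `w`, into `D` by
planting `(1, w)`. Planting both makes `C` and `D` meet. So the sum of `2 ^ (-2 ax (level))` over the
capturing stages is finite as `(C, D)` is disjoint, and it is finite over the other stages by
definition; so almost surely there are two hits at finitely many stages only, and the levels tend to
infinity. A reduction fails with probability at least a constant times `2 ^ (-ax (level))` at each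
stage which is not captured.
-/

set_option autoImplicit false

namespace Pool.Agent.Results.MP_0532f7_lc.DisjointnessAxioms

open MeasureTheory Pool.Agent.H628R3.RO Pool.Agent.J4H63.ESY Pool.Agent.J4H25

theorem result :
    (∀ᵐ A ∂randomOracle, NPP.DisjointnessAxioms A) ∧
    (∀ E : Oracle, ∀ᵐ A ∂randomOracle, NPP.DisjointnessAxioms (join A E)) := by
  constructor
  · filter_upwards [NPP.main NPP.embId2] with A hA
    exact hA.axioms
  · intro E
    filter_upwards [NPP.main (NPP.embJoin2 E)] with A hA
    exact hA.axioms

end Pool.Agent.Results.MP_0532f7_lc.DisjointnessAxioms
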