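import Pool.Agent.J4H63.GO.Final

/-!
# Optimal proof systems exist relative to a generic oracle iff they exist

Definitions:

* `Fml`, `Fml.eval`, `Fml.code`, `TAUT` (in `Pool/Agent/J4H63/GO/Taut.lean`): formulas with `¬` and
  `→`, their codes (Polish notation, `Fml.code_injective`), the set of the codes of the
  tautologies; `CookReckhow f`: `f` is polynomial-time computable (Mathlib's Turing machines) with
  range `TAUT`; `Simulates`, `PSimulates`, `OptimalCR f`, `POptimalCR f`: simulation, `p`-simulation,
  optimal and `p`-optimal Cook-Reckhow systems;
* `Oracle`, `Alg`, `IsFP`, `IsNP`, `IsCoNP`, `IsProofSystem`, `IsOptimal`, `IsPOptimal` (in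
  `Pool/Agent/H628R3/RO/Defs.lean`): the notions relative to an oracle; `join G E` is the disjoint
  union of `G` and `E`; `∀ᶠ G in residual Oracle` means for comeagerly many `G` (product topology);
* `AllOptimal X` (`AllPOptimal X`): relative to `X` every nonempty set in `coNP` has an optimal
  (`p`-optimal) proof system; this holds iff one `coNP`-complete set has such a system
  (`allOptimal_iff_complete`).

Idea. A proof may contain the answers of the generic oracle `G` to the questions asked in its
verification: these are finitely many facts `ρ` about `G`. The soundness of a proof system relative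
to `E ⊕ G` is a closed property of `G`, so it is forced by finitely many facts `σ`. Hence a proof
with the facts `ρ` shows that `x` is in the set for all `B` which satisfy `σ` and `ρ`, and this is
a `coNP` statement relative to `E`, without `G`. An optimal system relative to `E` for these
statements, together with a look at `G` to see that `ρ` is true, is an optimal system relative to
`E ⊕ G`. Conversely a system for a set in `coNP` relative to `E` that may ask `G` becomes a system
that does not ask `G` when the answers consistent with `σ` are part of the proof.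
-/

set_option autoImplicit false

namespace Pool.Agent.Results.MP_0532f7_lc.GenericOracle

open Filter Pool.Agent.H628R3.RO Pool.Agent.J4H63.ESY Pool.Agent.J4H63.GO

theorem result :
    -- the question itself: an optimal Cook-Reckhow system exists iff, for comeagerly many `G`,
    -- optimal systems exist relative to `G`; none exists iff the same fails for comeagerly many `G`
    (((∃ f, OptimalCR f) ↔ ∀ᶠ G in residual Oracle, AllOptimal G) ∧
      ((¬ ∃ f, OptimalCR f) ↔ ∀ᶠ G in residual Oracle, ¬ AllOptimal G) ∧
      ((∃ f, POptimalCR f) ↔ ∀ᶠ G in residual Oracle, AllPOptimal G) ∧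
      ((¬ ∃ f, POptimalCR f) ↔ ∀ᶠ G in residual Oracle, ¬ AllPOptimal G)) ∧
    -- the same over every base `E`, where `NP` and `coNP` differ in the generic extension
    (∀ E : Oracle, ∀ᶠ G in residual Oracle, (AllOptimal (join G E) ↔ AllOptimal E) ∧
      (AllPOptimal (join G E) ↔ AllPOptimal E) ∧
      (∃ L : Set (List Bool), IsNP (join G E) L ∧ ¬ IsCoNP (join G E) L)) ∧
    -- and for every fixed set
    (∀ (E : Oracle) (L : Set (List Bool)), ∀ᶠ G in residual Oracle,
      ((∃ P, IsOptimal (join G E) L P) ↔ ∃ P, IsOptimal E L P) ∧
      ((∃ P, IsPOptimal (join G E) L P) ↔ ∃ P, IsPOptimal E L P)) ∧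
    -- over a base with `NP = coNP`, optimal systems exist in comeagerly many extensions
    (∀ E : Oracle, (∀ L, IsCoNP E L → IsNP E L) → ∀ᶠ G in residual Oracle,
      AllOptimal (join G E) ∧ ∃ L : Set (List Bool), IsNP (join G E) L ∧ ¬ IsCoNP (join G E) L) := by
  obtain ⟨h1, h2⟩ := eventually_iff_const (q1.mono fun _ h => h.1)
  obtain ⟨h3, h4⟩ := eventually_iff_const (q1.mono fun _ h => h.2)
  refine ⟨⟨h1, h2, h3, h4⟩, fun E => ?_, fixed, fun E hE => ?_⟩
  · filter_upwards [invariant E, np_ne E] with G h5 h6
    exact ⟨h5.1, h5.2, h6⟩
  · filter_upwards [invariant E, np_ne E] with G h5 h6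
    exact ⟨h5.1.2 (allOptimal_of_np_eq hE), h6⟩

end Pool.Agent.Results.MP_0532f7_lc.GenericOracle
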