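import Pool.Agent.J4H65.OF.Main
import Pool.Agent.J4H65.OF.Sharp

/-!
# How many changes of a random oracle yield optimal proof systems

Definitions (in `Pool.Agent.J4H65.OF.Defs`, `Pool.Agent.J4H65.OF.SDefs`, `Pool.Agent.J4H65.OP.Defs`):
* `dif A B N`: the set of the `i < N` such that the oracles `A` and `B` differ at the string number
  `i` in the list of all strings;
* `IsProofSystem A L P`: `P` is computable in polynomial time relative to `A`, and its range is `L`;
* `IsPOptimal A L P`: moreover each proof system `Q` for `L` relative to `A` is translated into `P`
  by a function computable in polynomial time relative to `A`;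
* `IsOptimal A L P`: `P` is a proof system for `L` relative to `A` whose proofs are at most
  polynomially longer than those of any other; `IsCoNPHard A L`: all sets in `coNP` relative to `A`
  are many-one reducible to `L` in polynomial time relative to `A`;
* `IsLocal Λ`, for a map `Λ` from oracles to sets of strings: for some polynomial `b`, membership
  of `x` in `Λ A` depends only on the strings of length at most `b |x|` in `A` (no computability is
  required; for instance `Λ` may be constant);
* `HasSystems Λ A`: all nonempty languages in `PSPACE` relative to `A`, in particular those in
  `coNP`, and all nonempty sets among `Λ 0 A`, `Λ 1 A`, ..., have `p`-optimal proof systems;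
* `NoCollapse A`: relative to `A`, the class `NP` is not contained in `coNP/poly`; some language in
  `NP` with all elements of the form `1^(2^(2^n))` is not in `coNP` (so `NEE ≠ coNEE`, even for
  tally sets); for `i = 0, 1, 2, 3` the class `SPACE(2_i^POL)` is not contained in the hierarchy over
  `TIME(2_i^POL)` (constantly many alternating quantifiers) with polynomial advice, where
  `2_0^m = m` and `2_(i+1)^m = 2^(2_i^m)`.

The others are in the starting library (`Pool.Agent.H620R2.Gauge.Defs`, `Pool.Agent.H620R2.Gauge.M`,
`Pool.Agent.H620R2.Gauge2.Defs`, `H529R3.Lev.Defs`): `Oracle`, a set of bit strings; `ranO`, the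
fair coin measure on the set of the oracles; `IsNP`, `IsPSPACE`, `IsSpace i`, `IsTHpoly i`.

Main result: for almost every oracle `B` the following holds for every `f : ℕ → ℕ`. If `f` tends to
infinity, no matter how slowly, then `B` can be changed at no more than `f N` of the first `N`
strings, for every `N`, such that `HasSystems` and `NoCollapse` hold for the new oracle. If `f` does
not tend to infinity, then no coNP-hard set has an optimal proof system relative to an oracle which
differs from `B` at no more than `f N` of the first `N` strings, for every `N`.

Proof. If `f` does not tend to infinity, only finitely many changes are allowed. As there are only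
countably many ways to make them, and each of them preserves the measure, the claim follows from the
theorem on random oracles (`RandomOracles`, in the folder of this problem).

Now let `f` tend to infinity. A universal proof system simulates the program number `q` as a proof
system for the set number `e`, when the proof, padded to the time of the simulation, has a length up
to `n = 2 ^ (2 ^ (s j))`, where the oracle carries a mark for the activation of `(e, q)` and none
for its deactivation at the scales up to `n`. The marks are syndromes: a mark at the scale `n` means
that `r = 2 size(s j) + 2 |q|` parities of the `2 ^ r` bits of the oracle at certain strings beyond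
the reach of the program are odd, and this can be achieved by changing one of these bits. Almost
surely only finitely many marks occur by chance for given `e`. The oracle is changed at two places
at most for each `(e, q)`: the activation, at a late scale which depends on `f`, and the
deactivation at the first scale at which the program outputs something which is not in the set. The
properties in `NoCollapse` hold outside of null sets for gauges, and they are preserved by few
changes at known places.

Two further results are in the library: `Pool.Agent.J4H65.OF.every` (such changes for a copy of
every oracle), and `Pool.Agent.J4H65.OF.main2` (the size of the set of the new oracles, for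
gauges).
-/

set_option autoImplicit false

namespace Pool.Agent.Results.MP_0532f7_lc.ManyOracles

open MeasureTheory Pool.Agent.H620R2.Gauge Pool.Agent.J4H65.OP Pool.Agent.J4H65.OF Filter

theorem dif_mono (A B : Oracle) {N M : ℕ} (h : N ≤ M) : (dif A B N).card ≤ (dif A B M).card := by
  refine Finset.card_le_card fun i hi => ?_
  simp only [dif, Finset.mem_filter, Finset.mem_range] at hi ⊢
  exact ⟨lt_of_lt_of_le hi.1 h, hi.2⟩

/-- A bounded number of differences among the first `N` strings: finitely many differences. -/
theorem finite_of_card {A B : Oracle} {c : ℕ} (h : ∀ N, (dif A B N).card ≤ c) :
    {y | A y ≠ B y}.Finite := by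
  by_contra hinf
  obtain ⟨T, hT, hc⟩ := Set.Infinite.exists_subset_card_eq hinf (c + 1)
  obtain ⟨N, hN⟩ : ∃ N, ∀ y ∈ T, idx y < N :=
    ⟨T.sup idx + 1, fun y hy => Nat.lt_succ_of_le (Finset.le_sup hy)⟩
  have h1 : T.card ≤ (dif A B N).card := by
    refine Finset.card_le_card_of_injOn idx (fun y hy => ?_) (fun a _ b _ hab => ?_)
    · have hy' : y ∈ T := hy
      have h2 : A y ≠ B y := hT hy'
      rw [Finset.mem_coe]
      simp only [dif, Finset.mem_filter, Finset.mem_range, str_idx]
      exact ⟨hN y hy', h2⟩
    · rw [← str_idx a, ← str_idx b, hab]
  have h2 := h N
  omega

/-- **For almost every oracle the following holds for every `f`: if `f` tends to infinity, some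
oracle with at most `f` changes has `p`-optimal proof systems, without collapse of the usual
hierarchies; otherwise no oracle with at most `f` changes has an optimal proof system for a
`coNP`-hard set.** -/
theorem result (Λ : ℕ → Oracle → Set (List Bool)) (hΛ : ∀ e, IsLocal (Λ e)) :
    ∀ᵐ B ∂ranO, ∀ f : ℕ → ℕ,
      (Tendsto f atTop atTop → ∃ A : Oracle, (∀ N : ℕ, (dif A B N).card ≤ f N) ∧
        HasSystems Λ A ∧ NoCollapse A) ∧
      (¬ Tendsto f atTop atTop → ∀ A : Oracle, (∀ N : ℕ, (dif A B N).card ≤ f N) →
        ∀ L : Set (List Bool), IsCoNPHard A L → ¬ ∃ P, IsOptimal A L P) := by
  filter_upwards [main1 Λ hΛ, sharp] with B h1 h2 f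
  refine ⟨h1 f, fun hf A hA => ?_⟩
  obtain ⟨c, hc⟩ : ∃ c, ∀ N, ∃ M, N ≤ M ∧ f M ≤ c := by
    by_contra hcon
    refine hf (tendsto_atTop.2 fun c => ?_)
    by_contra hev
    refine hcon ⟨c, fun N => ?_⟩
    by_contra hN
    refine hev (eventually_atTop.2 ⟨N, fun M hM => ?_⟩)
    by_contra hlt
    exact hN ⟨M, hM, by omega⟩
  refine h2 A (finite_of_card (c := c) fun N => ?_)
  obtain ⟨M, hM, hfM⟩ := hc N
  exact (dif_mono A B hM).trans ((hA M).trans hfM)

end Pool.Agent.Results.MP_0532f7_lc.ManyOracles
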