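import Pool.Agent.J4H45.EXP.Main

/-!
# No optimal proof systems relative to random oracles

Definitions (in `Pool/Agent/H628R3/RO/Defs.lean` and `Pool/Agent/J4H63/ESY/Defs.lean`):

* an `Oracle` is a set of bit strings (a function from strings to booleans); `randomOracle` is the
  fair coin measure on the space of all oracles, so `∀ᵐ A` means for all oracles outside of a set of
  measure zero; `join A E` is the disjoint union of `A` and `E`;
* `IsFP A F`: the function `F` on bit strings is computable in polynomial time relative to `A`
  (by an algorithm `Alg`, whose next action, as a function of the input and of the answers so far,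
  is computed in polynomial time by a Turing machine of Mathlib);
* `IsNP A`, `IsCoNP A`: the classes `NP` and `coNP` relative to `A`; `CoNPHardRel A L`: every set
  in `coNP` relative to `A` is polynomial-time many-one reducible to `L` relative to `A`;
* `IsProofSystem A L P`: the function `P` is computable in polynomial time relative to `A` and its
  range is `L`; `IsOptimal A L P`: it is a proof system for `L` and simulates every proof system
  for `L` relative to `A` with polynomial blow-up of the length of the proofs.

Idea.  For words `w` of length `n` the oracle gives sequences of random bits; the statement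
`code n j` says that no `w` of length `n` has `n + j` ones at the beginning of its sequence; it is
false with probability about `2 ^ (-j)`.  All this is about a sparse sequence of numbers
`n = T i`.  If a sound system proves `code n j` then planting a hit for a word not touched by
the proof gives a false proof; so the sum over `i` of the probabilities of short proofs of
`code (T i) j`, times `2 ^ (-j)`, is bounded.  The new system uses the axioms `code (T i) (l i)`
where the level `l i` is the number of earlier axioms which have no short proof in the given
system (computed by exhaustive search). So the sum of `2 ^ (- l i)` is finite: almost surely only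
finitely many of the axioms are false, and infinitely many have no short proof.
-/

set_option autoImplicit false

namespace Pool.Agent.Results.MP_0532f7_lc.RandomOracles

open MeasureTheory Pool.Agent.H628R3.RO Pool.Agent.J4H63.ESY Pool.Agent.J4H45

theorem result :
    (∀ᵐ A ∂randomOracle, ∀ L : Set (List Bool), CoNPHardRel A L →
      (¬ ∃ P, IsOptimal A L P) ∧
      ∀ P, IsProofSystem A L P → ∃ Q, IsProofSystem A L Q ∧ (∀ v, Q (false :: v) = P v) ∧
        ∃ k : ℕ, ∀ N : ℕ, ∃ w : List Bool, N ≤ w.length ∧
          ∀ v, P v = Q w → 2 ^ w.length ≤ v.length ^ k) ∧
    (∀ E : Oracle, ∀ᵐ A ∂randomOracle, ∀ L : Set (List Bool), CoNPHardRel (join A E) L →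
      (¬ ∃ P, IsOptimal (join A E) L P) ∧
      ∀ P, IsProofSystem (join A E) L P →
        ∃ Q, IsProofSystem (join A E) L Q ∧ (∀ v, Q (false :: v) = P v) ∧
          ∃ k : ℕ, ∀ N : ℕ, ∃ w : List Bool, N ≤ w.length ∧
            ∀ v, P v = Q w → 2 ^ w.length ≤ v.length ^ k) := by
  constructor
  · filter_upwards [EXP.main OPT.embId] with A hA L hL
    exact ⟨EXP.not_isOptimal (hA L hL), hA L hL⟩
  · intro E
    filter_upwards [EXP.main (OPT.embJoin E)] with A hA L hL
    exact ⟨EXP.not_isOptimal (hA L hL), hA L hL⟩

end Pool.Agent.Results.MP_0532f7_lc.RandomOracles
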